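import Pool.Agent.X239.PEDRec

/-!
# Recognising homogeneous partial edge drawings

Problem MP_6c5ec8_lc, Q1.

* `Pool.Agent.X239.PED.Drw`: the data of a straight-line drawing (list of rational points, list of
  edges); `IsDrawing`: it is a straight-line drawing of a simple graph in which no edge passes
  through a vertex other than its endpoints.
* `HasHPED δ Γ`: the drawing `Γ` admits a (not necessarily symmetric) `δ`-HPED.
* `Below δ`: the comparison of fractions with `δ`.
-/

namespace Pool.Agent.Results.MP_6c5ec8_lc.InPolyTime

open Pool.Agent.NPC Pool.Agent.X239.PED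

/-- For every fixed `δ` in `(0, 1/2)` which is rational or, more generally, with which fractions can
be compared in polynomial time, the straight-line drawings which admit a `δ`-HPED can be recognised
in polynomial time. -/
theorem result (δ : ℝ) (h0 : 0 < δ) (_h1 : δ < 1 / 2)
    (h : (∃ q : ℚ, (q : ℝ) = δ) ∨ InPP (Below δ)) :
    InPP fun Γ : Drw => IsDrawing Γ ∧ HasHPED δ Γ := by
  rcases h with ⟨q, rfl⟩ | h
  · exact main h0 (below_rat q)
  · exact main h0 h

end Pool.Agent.Results.MP_6c5ec8_lc.InPolyTime
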